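import Pool.Agent.H72.HM.C2

set_option autoImplicit false

/-!
# Uniqueness of extremals for the Hardy–Morrey inequality (MP_e9cdae_an)

Uniqueness up to scalar multiples and similarities of the domain holds in dimension `n` with
exponent `p > n` if and only if `n = 1`.  For every `n ≥ 2` and every `p > n` it fails for the unit
ball minus two disjoint small closed balls.  In dimension one all extremals are determined.

The definitions (`E`, `IsWeakGradient`, `MemD0`, `energy`, `weightedSup`, `hardyMorrey`,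
`IsExtremal`, `UniqueExtremals`) are in `Pool/Agent/H72/HM/Defs.lean`.
-/

open Set
open scoped RealInnerProductSpace

namespace Pool.Agent.Results.MP_e9cdae_an.EveryExponent

open Pool.Agent.H72.HM

/-- **Main theorem.** (1) For all `n ≥ 1` and `p > n`, the uniqueness statement of the question
holds in dimension `n` with exponent `p` if and only if `n = 1`.
(2) For every `n ≥ 2`, every `p > n` and every unit vector `e` there are `a, b` in `(0, 1/16]` such
that the connected open set `Ω = B(0,1) \ (B̄(0,a) ∪ B̄(e/2,b))` has two extremals `u, v` of the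
Hardy–Morrey quotient with `v ≠ c (u ∘ T)` for every `c ≠ 0` and every similarity `T x = r Q x + t`
mapping `Ω` onto itself.
(3) For `n = 1`, `p > 1` and a connected open set `Ω ≠ ℝ`, a function `u` is an extremal for `Ω` if
and only if `Ω` is an open half-line and `u = κ min(d_Ω, d)` for some `κ ≠ 0` and `d > 0`. -/
theorem result :
    (∀ (n : ℕ) (p : ℝ), 1 ≤ n → (n : ℝ) < p → (UniqueExtremals n p ↔ n = 1)) ∧
    (∀ (n : ℕ) (p : ℝ) (e : E n), 2 ≤ n → (n : ℝ) < p → ‖e‖ = 1 →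
      ∃ a b : ℝ, 0 < a ∧ a ≤ 1 / 16 ∧ 0 < b ∧ b ≤ 1 / 16 ∧
        ∃ Ω : Set (E n),
          Ω = Metric.ball 0 1 \ (Metric.closedBall 0 a ∪ Metric.closedBall ((1 / 2 : ℝ) • e) b) ∧
          IsOpen Ω ∧ IsConnected Ω ∧ Ω ≠ univ ∧
          ∃ u v : E n → ℝ, IsExtremal p Ω u ∧ IsExtremal p Ω v ∧
            ∀ (c r : ℝ) (Q : E n ≃ₗᵢ[ℝ] E n) (t : E n), c ≠ 0 → 0 < r →
              (fun x => r • Q x + t) '' Ω = Ω → v ≠ fun x => c * u (r • Q x + t)) ∧
    ∀ (p : ℝ) (Ω : Set (E 1)) (u : E 1 → ℝ), 1 < p → IsOpen Ω → IsConnected Ω → Ω ≠ univ →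
      (IsExtremal p Ω u ↔ (∃ y w : E 1, ‖w‖ = 1 ∧ Ω = {x | 0 < ⟪x - y, w⟫}) ∧
        ∃ κ d : ℝ, κ ≠ 0 ∧ 0 < d ∧ ∀ x, u x = κ * min (Metric.infDist x Ωᶜ) d) := by
  refine ⟨fun n p hn hp => ⟨fun h => ?_, ?_⟩, fun n p e hn hp he => nonunique n hn p hp e he,
    fun p Ω u hp ho hc hne => class_one hp ho hc hne u⟩
  · by_contra hne
    have h2 : 2 ≤ n := by omega
    obtain ⟨e, he⟩ : ∃ e : E n, ‖e‖ = 1 := ⟨EuclideanSpace.single ⟨0, hn⟩ 1, by simp⟩
    obtain ⟨a, b, -, -, -, -, Ω, -, h3, h4, h5, u, v, hu, hv, h6⟩ := nonunique n h2 p hp e he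
    obtain ⟨c, r, Q, t, h7, h8, h9, h10⟩ := h Ω h3 h4 h5 u v hu hv
    exact h6 c r Q t h7 h8 h9 h10
  · rintro rfl
    exact unique_one (by exact_mod_cast hp)

end Pool.Agent.Results.MP_e9cdae_an.EveryExponent
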